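import Mathlib

set_option autoImplicit false
open Set

namespace Pool.Agent.H.MP_d4e048_an

section
variable {B : Type} [Ring B] [TopologicalSpace B] [IsTopologicalRing B]

/-- The component of the identity in the group of units. -/
def N (B : Type) [Ring B] [TopologicalSpace B] [IsTopologicalRing B] : Subgroup Bˣ :=
  Subgroup.connectedComponentOfOne Bˣ

theorem mem_N {u : Bˣ} : u ∈ N B ↔ u ∈ connectedComponent (1 : Bˣ) := Iff.rfl

theorem map_N {C : Type} [Ring C] [TopologicalSpace C] [IsTopologicalRing C] (f : Bˣ → Cˣ)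
    (hf : Continuous f) (h1 : f 1 = 1) {u : Bˣ} (hu : u ∈ N B) : f u ∈ N C := by
  have := hf.image_connectedComponent_subset 1 ⟨u, hu, rfl⟩
  rwa [h1] at this

theorem conj_N {z : Bˣ} (hz : z ∈ N B) (v : Bˣ) : v * z * v⁻¹ ∈ N B :=
  map_N (fun x => v * x * v⁻¹) (by fun_prop) (by simp) hz

theorem conj_cc {z : Bˣ} (hz : z ∈ N B) (v : Bˣ) : z * v * z⁻¹ ∈ connectedComponent v := by
  have h := (N B).mul_mem hz (conj_N ((N B).inv_mem hz) v)
  have := (continuous_mul_const v).image_connectedComponent_subset 1 ⟨_, h, rfl⟩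
  simpa [mul_assoc] using this

variable [Algebra ℂ B] [ContinuousSMul ℂ B]

theorem el {x : B} (hx : x * x = 0) : ∃ u ∈ N B, (u : B) = 1 + x ∧ ((u⁻¹ : Bˣ) : B) = 1 - x := by
  let p : ℂ → Bˣ := fun t => ⟨1 + t • x, 1 - t • x, by
    simp [mul_sub, add_mul, hx], by simp [sub_mul, mul_add, hx]⟩
  have hp : Continuous p := Units.continuous_iff.2 ⟨by
    change Continuous fun t : ℂ => 1 + t • x
    fun_prop, by
    change Continuous fun t : ℂ => 1 - t • x
    fun_prop⟩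
  refine ⟨p 1, (isPreconnected_range hp).subset_connectedComponent ⟨0, Units.ext (by simp [p])⟩
    ⟨1, rfl⟩, by simp [p], by simp [p]⟩

theorem fix_aux (hs : ∀ x : B, x ≠ 0 → ∃ a b : B, a * x * b = 1) (h01 : (0 : B) ≠ 1) {f : B}
    (hf : f * f = f) (u : Bˣ) (hc : f * u * (1 - f) ≠ 0) :
    ∃ (w : Bˣ) (g : B), u⁻¹ * w ∈ N B ∧ g ≠ 0 ∧ g * g = g ∧ g * w = g ∧ w * g = g := by
  obtain ⟨a, b, hab⟩ := hs _ hc
  obtain ⟨t, ht⟩ : ∃ t, t = a * f := ⟨_, rfl⟩
  obtain ⟨y, hy⟩ : ∃ y, y = (1 - f) * b := ⟨_, rfl⟩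
  have ty : t * y = 0 := by rw [ht, hy, mul_assoc, ← mul_assoc f, mul_sub, hf]; simp
  have tuy : t * (u * y) = 1 := by rw [← hab, ht, hy]; simp only [mul_assoc]
  obtain ⟨g, hg⟩ : ∃ g, g = u * y * t := ⟨_, rfl⟩
  have tg : t * g = t := by rw [hg, ← mul_assoc, tuy, one_mul]
  have gg : g * g = g := by rw [hg, mul_assoc _ t, ← hg, tg, hg]
  have g0 : g ≠ 0 := fun h => h01 (by rw [← tuy, ← tg, h, mul_zero, zero_mul])
  have gy : g * y = 0 := by rw [hg, mul_assoc, ty, mul_zero]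
  have guy : g * u * (y * t) = g := by
    rw [mul_assoc, ← mul_assoc (u : B), ← hg, gg]
  obtain ⟨e1, m1, v1, -⟩ := el (x := y * t * (g - g * u * g)) (by
    linear_combination (norm := noncomm_ring) y * t * (1 - g * u) * gy * t * (g - g * u * g))
  have k1 : g * (u * e1 : Bˣ) * g = g := by
    rw [Units.val_mul, v1]
    linear_combination (norm := noncomm_ring) guy * (g - g * u * g) * g +
      gg * (1 - u * g) * g + gg - g * u * gg
  obtain ⟨v, hv⟩ : ∃ v, v = u * e1 := ⟨_, rfl⟩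
  rw [← hv] at k1
  obtain ⟨e2, m2, -, v2⟩ := el (x := g * v * (1 - g)) (by
    linear_combination (norm := noncomm_ring) -(g * v) * gg * v * (1 - g))
  have k2 : g * (v * e2⁻¹ : Bˣ) = g := by
    rw [Units.val_mul, v2]
    linear_combination (norm := noncomm_ring) k1 - k1 * v * (1 - g)
  obtain ⟨w, hw⟩ : ∃ w, w = v * e2⁻¹ := ⟨_, rfl⟩
  rw [← hw] at k2
  obtain ⟨e3, m3, -, v3⟩ := el (x := (1 - g) * w * g) (by
    linear_combination (norm := noncomm_ring) -((1 - g) * w) * gg * w * g)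
  refine ⟨e3⁻¹ * w, g, ?_, g0, gg, ?_, ?_⟩
  · have := (N B).mul_mem (conj_N ((N B).inv_mem m3) u⁻¹) ((N B).mul_mem m1 ((N B).inv_mem m2))
    simpa [hw, hv, mul_assoc] using this
  · rw [Units.val_mul, v3]
    linear_combination (norm := noncomm_ring) k2 + gg * w * g * w
  · rw [Units.val_mul, v3]
    linear_combination (norm := noncomm_ring) k2 * g + gg - (1 - g) * w * k2 * g -
      (1 - g) * w * gg

theorem fix (hs : ∀ x : B, x ≠ 0 → ∃ a b : B, a * x * b = 1) {f : B}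
    (hf : f * f = f) (f0 : f ≠ 0) (f1 : 1 - f ≠ 0) (u : Bˣ) :
    ∃ (w : Bˣ) (g : B), u⁻¹ * w ∈ N B ∧ g ≠ 0 ∧ g * g = g ∧ g * w = g ∧ w * g = g := by
  have h01 : (0 : B) ≠ 1 := fun h => f0 (by rw [← mul_one f, ← h, mul_zero])
  by_cases hc : f * u * (1 - f) = 0
  · obtain ⟨a, b, h1⟩ := hs f f0
    obtain ⟨c, d, h2⟩ := hs _ f1
    have ui : (u : B) * (u⁻¹ : Bˣ) = 1 := u.mul_inv
    obtain ⟨e, m, v, -⟩ := el (x := f * (u⁻¹ : Bˣ) * f * b * c * (1 - f)) (by
      linear_combination (norm := noncomm_ring) -(f * (u⁻¹ : Bˣ) * f * b * c) * hf *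
        (u⁻¹ : Bˣ) * f * b * c * (1 - f))
    obtain ⟨w, g, k, r⟩ := fix_aux hs h01 hf (u * e) fun h => h01 (by
      rw [Units.val_mul, v] at h
      have h3 : f * b * c * (1 - f) = 0 := by
        linear_combination (norm := noncomm_ring) h - hc +
          hc * (u⁻¹ : Bˣ) * f * b * c * (1 - f) * (1 - f) -
          f * ui * f * b * c * (1 - f) * (1 - f) - hf * b * c * (1 - f) * (1 - f) -
          f * b * c * hf
      linear_combination (norm := noncomm_ring) h1 * c * (1 - f) * d + h2 - a * h3 * d)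
    refine ⟨w, g, ?_, r⟩
    simpa [mul_assoc] using (N B).mul_mem m k
  · exact fix_aux hs h01 hf u hc

end

section
variable {A : Type} [Ring A] {ι : Type} [Fintype ι] [DecidableEq ι]

/-- Compression of matrices along a family of orthogonal isometries. -/
def Phi (S T : ι → A) (M : Matrix ι ι A) : A :=
  ∑ i, ∑ j, S i * M i j * T j + (1 - ∑ i, S i * T i)

theorem Phi_one (S T : ι → A) : Phi S T 1 = 1 := by
  simp [Phi, Matrix.one_apply]

theorem Phi_mul {S T : ι → A} (h : ∀ i j, T i * S j = if i = j then 1 else 0)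
    (M M' : Matrix ι ι A) : Phi S T M * Phi S T M' = Phi S T (M * M') := by
  have h1 : ∀ j, T j * (1 - ∑ i, S i * T i) = 0 := fun j => by
    simp [mul_sub, Finset.mul_sum, ← mul_assoc, h]
  have h2 : ∀ j, (1 - ∑ i, S i * T i) * S j = 0 := fun j => by
    simp [sub_mul, Finset.sum_mul, mul_assoc, h]
  have h3 : (1 - ∑ i, S i * T i) * (1 - ∑ i, S i * T i) = 1 - ∑ i, S i * T i := by
    rw [mul_sub (1 - ∑ i, S i * T i), mul_one, Finset.mul_sum]
    simp [← mul_assoc, h2]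
  obtain ⟨Q, hQ⟩ : ∃ Q, Q = 1 - ∑ i, S i * T i := ⟨_, rfl⟩
  have h4 : ∀ j, T j * ∑ k, ∑ l, S k * M' k l * T l = ∑ l, M' j l * T l := fun j => by
    simp [Finset.mul_sum, ← mul_assoc, h]
  unfold Phi
  rw [← hQ] at h1 h2 h3 ⊢
  obtain ⟨R, hR⟩ : ∃ R, R = ∑ k, ∑ l, S k * M' k l * T l := ⟨_, rfl⟩
  have h5 : Q * R = 0 := by simp [hR, Finset.mul_sum, ← mul_assoc, h2]
  rw [← hR] at h4 ⊢
  rw [add_mul, mul_add, mul_add, h3, h5, zero_add]
  simp only [Finset.sum_mul, mul_assoc, h4, h1, mul_zero, Finset.sum_const_zero, add_zero]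
  simp only [Finset.mul_sum, ← mul_assoc, Matrix.mul_apply, Finset.sum_mul]
  congr 1
  exact Finset.sum_congr rfl fun i _ => Finset.sum_comm

theorem fam {s₁ t₁ s₂ t₂ : A} (h11 : t₁ * s₁ = 1) (h22 : t₂ * s₂ = 1) (h12 : t₁ * s₂ = 0)
    (h21 : t₂ * s₁ = 0) (i j : ℕ) :
    t₁ * t₂ ^ i * (s₂ ^ j * s₁) = if i = j then 1 else 0 := by
  induction i generalizing j with
  | zero =>
    rcases j with _ | j
    · simp [h11]
    · simp [pow_succ', ← mul_assoc, h12]
  | succ i ih =>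
    rcases j with _ | j
    · simp [pow_succ, mul_assoc, h21]
    · have : t₁ * t₂ ^ (i + 1) * (s₂ ^ (j + 1) * s₁) = t₁ * t₂ ^ i * (s₂ ^ j * s₁) := by
        rw [pow_succ, pow_succ']
        linear_combination (norm := noncomm_ring) t₁ * t₂ ^ i * h22 * s₂ ^ j * s₁
      simp [this, ih]

theorem cuntz (hx : ∃ x : A, x ≠ 0 ∧ ¬ IsUnit x) (hs : ∀ x : A, x ≠ 0 → ∃ a b : A, a * x * b = 1) :
    ∃ s₁ t₁ s₂ t₂ : A, t₁ * s₁ = 1 ∧ t₂ * s₂ = 1 ∧ t₁ * s₂ = 0 ∧ t₂ * s₁ = 0 := by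
  obtain ⟨s, t, h1, h2⟩ : ∃ s t : A, t * s = 1 ∧ 1 - s * t ≠ 0 := by
    by_contra hc
    push Not at hc
    obtain ⟨x, x0, hx⟩ := hx
    obtain ⟨a, b, h⟩ := hs x x0
    have h1 := hc (x * b) a (by rw [← mul_assoc, h])
    rw [sub_eq_zero, mul_assoc] at h1
    have h2 := hc _ _ h1.symm
    rw [sub_eq_zero] at h2
    exact hx ⟨⟨x, b * a, h1.symm, h2.symm⟩, rfl⟩
  obtain ⟨a, b, h⟩ := hs _ h2
  refine ⟨s, t, (1 - s * t) * b, a * (1 - s * t), h1, ?_, ?_, ?_⟩
  · linear_combination (norm := noncomm_ring) h + a * s * h1 * t * b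
  · linear_combination (norm := noncomm_ring) -h1 * t * b
  · linear_combination (norm := noncomm_ring) -(a * s) * h1

end

end Pool.Agent.H.MP_d4e048_an
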