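import Pool.Agent.H.MP_d4e048_an.A

set_option autoImplicit false
set_option linter.unusedSectionVars false
open Matrix

namespace Pool.Agent.H.MP_d4e048_an

variable {A : Type} [NormedRing A] [NormedAlgebra ℂ A] {ι : Type} [Fintype ι] [DecidableEq ι]

/-- The compression as a monoid homomorphism. -/
def PhiH {S T : ι → A} (h : ∀ i j, T i * S j = if i = j then 1 else 0) : Matrix ι ι A →* A where
  toFun := Phi S T
  map_one' := Phi_one S T
  map_mul' M M' := (Phi_mul h M M').symm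

theorem Phi_diag (S T : ι → A) (o : ι) (w : A) :
    Phi S T (diagonal fun i => if i = o then w else 1) = 1 + S o * (w - 1) * T o := by
  have : ∀ i, ∑ j, S i * (diagonal fun i => if i = o then w else 1) i j * T j =
      S i * T i + if i = o then S o * (w - 1) * T o else 0 := fun i => by
    rw [Finset.sum_eq_single i (fun j _ hj => by simp [diagonal_apply_ne' _ hj]) (by simp)]
    by_cases h : i = o
    · simp [h, mul_sub, sub_mul]
    · simp [h]
  simp only [Phi, this, Finset.sum_add_distrib, Finset.sum_ite_eq', Finset.mem_univ, if_true]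
  abel

/-- The corner embedding as a monoid homomorphism. -/
def corner (o : ι) : A →* Matrix ι ι A where
  toFun a := diagonal fun i => if i = o then a else 1
  map_one' := by simp
  map_mul' a b := by
    rw [diagonal_mul_diagonal]
    congr 1
    ext i
    split_ifs <;> simp

theorem inj (hx : ∃ x : A, x ≠ 0 ∧ ¬ IsUnit x) (hs : ∀ x : A, x ≠ 0 → ∃ a b : A, a * x * b = 1)
    (m : ℕ) (a : Aˣ) (U : (Matrix (Fin (m + 1)) (Fin (m + 1)) A)ˣ)
    (hU : (U : Matrix (Fin (m + 1)) (Fin (m + 1)) A) =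
      diagonal fun i : Fin (m + 1) => if i = 0 then (a : A) else 1)
    (h : U ∈ N _) : a ∈ N A := by
  obtain ⟨s₁, t₁, s₂, t₂, h11, h22, h12, h21⟩ := cuntz hx hs
  have h01 : (0 : A) ≠ 1 := fun h => by
    obtain ⟨x, x0, -⟩ := hx
    exact x0 (by rw [← mul_one x, ← h, mul_zero])
  obtain ⟨w, g, k, g0, gg, gw, wg⟩ := fix hs (f := s₁ * t₁)
    (by linear_combination (norm := noncomm_ring) s₁ * h11 * t₁)
    (fun h => h01 (by
      linear_combination (norm := noncomm_ring) h11 * t₁ * s₁ + h11 - t₁ * h * s₁))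
    (fun h => h01 (by
      linear_combination (norm := noncomm_ring) h22 - h21 * t₁ * s₂ - t₂ * h * s₂)) a
  suffices w ∈ N A by simpa using (N A).mul_mem this ((N A).inv_mem k)
  have c1 : Continuous (corner (A := A) (0 : Fin (m + 1))) :=
    Continuous.matrix_diagonal (continuous_pi fun i => by
      by_cases hi : i = 0 <;> simp only [hi, if_true, if_false] <;> fun_prop)
  have e1 : U = Units.map (corner 0) a := Units.ext hU
  have m1 : Units.map (corner (0 : Fin (m + 1))) w ∈ N _ := by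
    have := (N _).mul_mem h (map_N _ (Units.continuous_map c1) (map_one _) k)
    rwa [e1, ← map_mul, mul_inv_cancel_left] at this
  obtain ⟨c, d, hcd⟩ := hs g g0
  obtain ⟨s, hs'⟩ : ∃ s, s = g * d := ⟨_, rfl⟩
  obtain ⟨t, ht'⟩ : ∃ t, t = c * g := ⟨_, rfl⟩
  have ts : t * s = 1 := by
    rw [hs', ht']; linear_combination (norm := noncomm_ring) hcd + c * gg * d
  have ws : (w - 1 : A) * s = 0 := by
    rw [hs']; linear_combination (norm := noncomm_ring) wg * d
  have tw : t * (w - 1 : A) = 0 := by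
    rw [ht']; linear_combination (norm := noncomm_ring) c * gw
  obtain ⟨S, S0, S1⟩ : ∃ S : ℕ → A, S 0 = 1 - s * t + s * s₁ * t ∧
      ∀ i, S (i + 1) = s * (s₂ ^ (i + 1) * s₁) :=
    ⟨fun i => Nat.casesOn i (1 - s * t + s * s₁ * t) fun i => s * (s₂ ^ (i + 1) * s₁), rfl,
      fun _ => rfl⟩
  obtain ⟨T, T0, T1⟩ : ∃ T : ℕ → A, T 0 = 1 - s * t + s * t₁ * t ∧
      ∀ i, T (i + 1) = t₁ * t₂ ^ (i + 1) * t :=
    ⟨fun i => Nat.casesOn i (1 - s * t + s * t₁ * t) fun i => t₁ * t₂ ^ (i + 1) * t, rfl,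
      fun _ => rfl⟩
  have TS : ∀ i j, T i * S j = if i = j then 1 else 0 := fun i j => by
    rcases i with _ | i <;> rcases j with _ | j
    · rw [T0, S0, if_pos rfl]
      linear_combination (norm := noncomm_ring) s * ts * t - s * ts * s₁ * t - s * t₁ * ts * t +
        s * t₁ * ts * s₁ * t + s * h11 * t
    · rw [T0, S1, if_neg (by omega), pow_succ']
      linear_combination (norm := noncomm_ring) (s * t₁ - s) * ts * s₂ * s₂ ^ j * s₁ +
        s * h12 * s₂ ^ j * s₁
    · rw [T1, S0, if_neg (by omega), pow_succ]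
      linear_combination (norm := noncomm_ring) t₁ * t₂ ^ i * t₂ * ts * (s₁ * t - t) +
        t₁ * t₂ ^ i * h21 * t
    · rw [T1, S1, ← fam h11 h22 h12 h21]
      linear_combination (norm := noncomm_ring) t₁ * t₂ ^ (i + 1) * ts * (s₂ ^ (j + 1) * s₁)
  have TS' : ∀ i j : Fin (m + 1), T i * S j = if i = j then 1 else 0 := fun i j => by
    simp [TS, Fin.ext_iff]
  have c2 : Continuous (PhiH TS') := by
    change Continuous fun M : Matrix _ _ A => Phi _ _ M
    unfold Phi
    fun_prop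
  have m2 := map_N _ (Units.continuous_map c2) (map_one _) m1
  convert m2 using 1
  refine Units.ext ?_
  change (w : A) = Phi _ _ (diagonal _)
  rw [Phi_diag, Fin.val_zero, S0, T0]
  linear_combination (norm := noncomm_ring) (s - s * s₁) * tw * (1 - s * t + s * t₁ * t) +
    ws * (t - t₁ * t)

theorem rot (x y : Matrix ι ι A) (h : y * x = 1) : ∃ z ∈ N (Matrix (ι ⊕ ι) (ι ⊕ ι) A),
    (z : Matrix (ι ⊕ ι) (ι ⊕ ι) A) = fromBlocks (1 - x * y) x (-y) 0 := by
  obtain ⟨e1, m1, v1, -⟩ := el (x := (fromBlocks 0 x 0 0 : Matrix (ι ⊕ ι) (ι ⊕ ι) A))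
    (by simp [fromBlocks_multiply])
  obtain ⟨e2, m2, v2, -⟩ := el (x := (fromBlocks 0 0 (-y) 0 : Matrix (ι ⊕ ι) (ι ⊕ ι) A))
    (by simp [fromBlocks_multiply])
  refine ⟨e1 * e2 * e1, (N _).mul_mem ((N _).mul_mem m1 m2) m1, ?_⟩
  rw [Units.val_mul, Units.val_mul, v1, v2, ← fromBlocks_one]
  simp only [fromBlocks_add, fromBlocks_multiply]
  congr 1
  · noncomm_ring
  · linear_combination (norm := noncomm_ring) -x * h
  · noncomm_ring
  · linear_combination (norm := noncomm_ring) -h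

theorem surj (hx : ∃ x : A, x ≠ 0 ∧ ¬ IsUnit x) (hs : ∀ x : A, x ≠ 0 → ∃ a b : A, a * x * b = 1)
    (n : ℕ) (U : (Matrix (Fin (n + 1)) (Fin (n + 1)) A)ˣ) : ∃ (a : Aˣ)
      (V W : (Matrix (Fin (n + 1) ⊕ Fin (n + 1)) (Fin (n + 1) ⊕ Fin (n + 1)) A)ˣ),
      V.1 = fromBlocks U.1 0 0 1 ∧
      W.1 = diagonal (fun i => if i = Sum.inl 0 then (a : A) else 1) ∧
      W ∈ connectedComponent V := by
  obtain ⟨s₁, t₁, s₂, t₂, h11, h22, h12, h21⟩ := cuntz hx hs
  obtain ⟨S, T, TS⟩ : ∃ S T : Fin (n + 1) → A, ∀ i j, T i * S j = if i = j then 1 else 0 :=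
    ⟨fun i => s₂ ^ (i : ℕ) * s₁, fun i => t₁ * t₂ ^ (i : ℕ), fun i j => by
      simp [fam h11 h22 h12 h21, Fin.ext_iff]⟩
  obtain ⟨X, hX⟩ : ∃ X : Matrix (Fin (n + 1)) (Fin (n + 1)) A,
      ∀ i j, X i j = if i = 0 then S j else 0 := ⟨of fun i j => if i = 0 then S j else 0,
        fun _ _ => rfl⟩
  obtain ⟨Y, hY⟩ : ∃ Y : Matrix (Fin (n + 1)) (Fin (n + 1)) A,
      ∀ i j, Y i j = if j = 0 then T i else 0 := ⟨of fun i j => if j = 0 then T i else 0,
        fun _ _ => rfl⟩
  have YX : Y * X = 1 := by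
    ext i j
    simp [Matrix.mul_apply, hX, hY, TS, Matrix.one_apply]
  have key : X * U.1 * Y + (1 - X * Y) = diagonal fun i => if i = 0 then Phi S T U else 1 := by
    ext i j
    by_cases hi : i = 0 <;> by_cases hj : j = 0
    · simp [hi, hj, Matrix.mul_apply, hX, hY, Phi, Finset.sum_mul]
      exact Finset.sum_comm
    · simp [hi, hj, Matrix.mul_apply, hX, hY, Ne.symm hj]
    · simp [hi, hj, Matrix.mul_apply, hX, hY]
    · simp [hi, hj, Matrix.mul_apply, hX, hY, Matrix.one_apply, diagonal_apply]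
  obtain ⟨z, m1, v1⟩ := rot X Y YX
  obtain ⟨j, m2, v2⟩ := rot (1 : Matrix (Fin (n + 1)) (Fin (n + 1)) A) 1 (mul_one _)
  let V : (Matrix (Fin (n + 1) ⊕ Fin (n + 1)) (Fin (n + 1) ⊕ Fin (n + 1)) A)ˣ :=
    ⟨fromBlocks U 0 0 1, fromBlocks (U⁻¹ : _ˣ) 0 0 1, by simp [fromBlocks_multiply],
      by simp [fromBlocks_multiply]⟩
  refine ⟨Units.map (PhiH TS) U, V, z * j * V * (z * j)⁻¹, rfl, ?_,
    conj_cc ((N _).mul_mem m1 m2) V⟩
  have e : (diagonal fun i => if i = Sum.inl 0 then Phi S T U else 1 :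
      Matrix (Fin (n + 1) ⊕ Fin (n + 1)) _ A) = fromBlocks (X * U.1 * Y + (1 - X * Y)) 0 0 1 := by
    rw [key, ← diagonal_one, fromBlocks_diagonal]
    congr 1
    ext (i | i) <;> simp
  rw [Units.val_mul, Units.mul_inv_eq_iff_eq_mul]
  change _ = diagonal (fun i => if i = Sum.inl 0 then Phi S T U else 1) * _
  rw [e, Units.val_mul, Units.val_mul, v1, v2]
  simp only [V, fromBlocks_multiply]
  congr 1
  · linear_combination (norm := noncomm_ring) X * U.1 * YX - X * YX
  · linear_combination (norm := noncomm_ring) X * U.1 * YX * Y - X * YX * Y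
  · simp
  · simp

end Pool.Agent.H.MP_d4e048_an
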